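import Mathlib

/-!
# Cosets of `2 G` in a finitely generated abelian group
-/

set_option autoImplicit false

namespace Pool.Agent.U214.IP

open DirectSum

lemma fin_cosets {H : Type} [AddCommGroup H] [Finite H] :
    Nat.card (H ⧸ (nsmulAddMonoidHom 2 : H →+ H).range) =
      Nat.card (nsmulAddMonoidHom 2 : H →+ H).ker := by
  have h1 := AddSubgroup.card_mul_index (nsmulAddMonoidHom 2 : H →+ H).ker
  have h2 := AddSubgroup.index_ker (nsmulAddMonoidHom 2 : H →+ H)
  have h3 := AddSubgroup.card_mul_index (nsmulAddMonoidHom 2 : H →+ H).range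
  rw [h2] at h1
  have h4 : 0 < Nat.card (nsmulAddMonoidHom 2 : H →+ H).range := Nat.card_pos
  rw [← h3, mul_comm] at h1
  exact (Nat.eq_of_mul_eq_mul_left h4 h1).symm

/-- the cosets of `2 G` -/
theorem cosets {G : Type} [AddCommGroup G] (hG : AddGroup.FG G) {k : ℕ}
    (hfin : {g : G | g + g = 0}.Finite) (h2 : {g : G | g + g = 0}.ncard ≤ k) :
    ∃ N : ℕ, N ≤ 2 ^ Module.finrank ℤ G * k ∧ ∃ Q : Fin N → G,
      ∀ g, ∃ i R, g = Q i + (R + R) := by
  classical
  haveI := hG
  obtain ⟨n, ι, hι, p, hp, e, ⟨φ⟩⟩ := AddCommGroup.equiv_free_prod_directSum_zmod G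
  haveI : ∀ i, NeZero (p i ^ e i) := fun i => ⟨pow_ne_zero _ (hp i).ne_zero⟩
  haveI hF : Finite (⨁ i : ι, ZMod (p i ^ e i)) :=
    Finite.of_equiv _ (DirectSum.addEquivProd (fun i : ι => ZMod (p i ^ e i))).symm.toEquiv
  obtain ⟨H, hH⟩ : ∃ H : Type, H = ⨁ i : ι, ZMod (p i ^ e i) := ⟨_, rfl⟩
  -- the rank
  haveI : Module.Finite ℤ G := Module.Finite.iff_addGroup_fg.2 hG
  have hn : n ≤ Module.finrank ℤ G := by
    let f : (Fin n →₀ ℤ) →+ G :=
      φ.symm.toAddMonoidHom.comp (AddMonoidHom.inl _ (⨁ i : ι, ZMod (p i ^ e i)))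
    have hf : Function.Injective f := by
      intro x y hxy
      have h1 := φ.symm.injective hxy
      exact (Prod.ext_iff.1 h1).1
    have h3 := LinearMap.finrank_le_finrank_of_injective (f := f.toIntLinearMap) hf
    simpa using h3
  -- the kernel
  let K := (nsmulAddMonoidHom 2 : (⨁ i : ι, ZMod (p i ^ e i)) →+ _).ker
  have hK : Nat.card K ≤ k := by
    refine le_trans ?_ h2
    rw [← Nat.card_coe_set_eq]
    haveI : Finite {g : G | g + g = 0} := hfin
    refine Nat.card_le_card_of_injective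
      (fun x : K => (⟨φ.symm (0, x.1), ?_⟩ : {g : G | g + g = 0})) ?_
    · have hx : (2 : ℕ) • x.1 = 0 := x.2
      rw [two_nsmul] at hx
      show φ.symm (0, x.1) + φ.symm (0, x.1) = 0
      rw [← map_add, Prod.mk_add_mk, hx, add_zero]
      exact map_zero φ.symm
    · intro x y hxy
      have h1 := Subtype.ext_iff.1 hxy
      have h3 := φ.symm.injective h1
      exact Subtype.ext (Prod.ext_iff.1 h3).2
  let R := (nsmulAddMonoidHom 2 : (⨁ i : ι, ZMod (p i ^ e i)) →+ _).range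
  let T := (Fin n → Fin 2) × ((⨁ i : ι, ZMod (p i ^ e i)) ⧸ R)
  haveI : Finite T := inferInstance
  have hT : Nat.card T = 2 ^ n * Nat.card K := by
    show Nat.card ((Fin n → Fin 2) × ((⨁ i : ι, ZMod (p i ^ e i)) ⧸ R)) = _
    rw [Nat.card_prod]
    congr 1
    · rw [Nat.card_eq_fintype_card]
      simp
    · exact fin_cosets
  let E := Finite.equivFin T
  refine ⟨Nat.card T, ?_, fun i => φ.symm (Finsupp.equivFunOnFinite.symm
    (fun j => (((E.symm i).1 j : ℕ) : ℤ)), (E.symm i).2.out), fun g => ?_⟩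
  · rw [hT]
    exact Nat.mul_le_mul (Nat.pow_le_pow_right (by norm_num) hn) hK
  · obtain ⟨⟨x, y⟩, hxy⟩ : ∃ z, z = φ g := ⟨_, rfl⟩
    let t : T := (fun j => ⟨((x j) % 2).toNat, by
      have := Int.emod_nonneg (x j) (by norm_num : (2 : ℤ) ≠ 0)
      have := Int.emod_lt_of_pos (x j) (by norm_num : (0 : ℤ) < 2)
      omega⟩, QuotientAddGroup.mk y)
    have hy : ∃ w, y = (QuotientAddGroup.mk y : (⨁ i : ι, ZMod (p i ^ e i)) ⧸ R).out +
        (w + w) := by
      have h5 : (QuotientAddGroup.mk y : (⨁ i : ι, ZMod (p i ^ e i)) ⧸ R) =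
          QuotientAddGroup.mk (QuotientAddGroup.mk y : (⨁ i : ι, ZMod (p i ^ e i)) ⧸ R).out :=
        (QuotientAddGroup.out_eq' _).symm
      rw [eq_comm, QuotientAddGroup.eq] at h5
      obtain ⟨w, hw⟩ := h5
      refine ⟨w, ?_⟩
      have h6 : (2 : ℕ) • w = _ := hw
      rw [two_nsmul] at h6
      rw [h6]
      abel
    obtain ⟨w, hw⟩ := hy
    refine ⟨E t, φ.symm (Finsupp.equivFunOnFinite.symm (fun j => x j / 2), w), ?_⟩
    apply φ.injective
    rw [map_add, map_add, AddEquiv.apply_symm_apply, AddEquiv.apply_symm_apply,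
      Equiv.symm_apply_apply]
    rw [← hxy]
    refine Prod.ext ?_ ?_
    · ext j
      simp only [t, Prod.fst_add, Finsupp.add_apply, Finsupp.equivFunOnFinite_symm_apply_apply]
      have := Int.emod_nonneg (x j) (by norm_num : (2 : ℤ) ≠ 0)
      have := Int.emod_lt_of_pos (x j) (by norm_num : (0 : ℤ) < 2)
      omega
    · simp only [t, Prod.snd_add]
      exact hw

end Pool.Agent.U214.IP
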