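import Mathlib
import Pool.Agent.U214.IP.Grp
import Pool.Agent.W214.RK.Half
import Pool.Agent.W261.RT.Iso
import Pool.Agent.U214.Old.CosetRepulsion
import Pool.Agent.U214.PT.Asm

/-!
# Large integral points of one curve `y² = x (x - a) (x - b)`
-/

set_option autoImplicit false

namespace Pool.Agent.U214.IP

open Pool.Agent.W262.RK (EAB)
open Pool.Agent.U214.PT (tr)
open Pool.Agent.Results.MP_a1107e_nt.CosetRepulsion (curve)

/-- the cosets of `2 E(ℚ)` -/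
lemma cov {a b : ℤ} (ha : a ≠ 0) (hb : b ≠ 0) (hab : a ≠ b) :
    ∃ N : ℕ, (N : ℝ) ≤ 4 * tr a b ∧ ∃ Q : Fin N → (EAB a b).toAffine.Point,
      ∀ g, ∃ i R, g = Q i + (R + R) := by
  classical
  obtain ⟨hfg, -, hns, hcard⟩ := Pool.Agent.W214.RK.half a b ha hb hab
  obtain ⟨T, hT⟩ : ∃ T : Set (EAB a b).toAffine.Point, T = {P | P = 0 ∨ ∃ (x : ℚ)
    (h : (EAB a b).toAffine.Nonsingular x 0), P = WeierstrassCurve.Affine.Point.some x 0 h} :=
    ⟨_, rfl⟩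
  rw [← hT] at hcard
  have hTfin : T.Finite := by
    have hsub : T ⊆ insert 0 ((fun x : ℚ =>
        if h : (EAB a b).toAffine.Nonsingular x 0 then
          WeierstrassCurve.Affine.Point.some x 0 h else 0) '' ({0, (a : ℚ), (b : ℚ)} : Set ℚ)) := by
      rw [hT]
      rintro P (rfl | ⟨x, h, rfl⟩)
      · exact Set.mem_insert _ _
      · right
        refine ⟨x, ?_, ?_⟩
        · have h5 := (hns x 0).mp h
          have h6 : x * (x - a) * (x - b) = 0 := by rw [← h5]; norm_num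
          rcases mul_eq_zero.mp h6 with h7 | h7
          · rcases mul_eq_zero.mp h7 with h8 | h8
            · left; exact h8
            · right; left; exact sub_eq_zero.mp h8
          · right; right; exact sub_eq_zero.mp h7
        · show (if h : (EAB a b).toAffine.Nonsingular x 0 then
            WeierstrassCurve.Affine.Point.some x 0 h else 0) = _
          rw [dif_pos h]
    exact ((Set.toFinite _).image _ |>.insert _).subset hsub
  have hsub : {g : (EAB a b).toAffine.Point | g + g = 0} ⊆ T := by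
    intro g hg
    rw [hT]
    rcases g with _ | ⟨x, y, h⟩
    · exact Or.inl rfl
    · right
      have h1 : (WeierstrassCurve.Affine.Point.some x y h : (EAB a b).toAffine.Point) =
          -WeierstrassCurve.Affine.Point.some x y h := eq_neg_of_add_eq_zero_left hg
      rw [WeierstrassCurve.Affine.Point.neg_some] at h1
      have h2 := (WeierstrassCurve.Affine.Point.some.injEq _ _ _ _ _ _).mp h1
      have h3 : y = 0 := by
        have h4 := h2.2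
        unfold WeierstrassCurve.Affine.negY EAB at h4
        simp only [WeierstrassCurve.toAffine, zero_mul, sub_zero] at h4
        linarith
      subst h3
      exact ⟨x, h, rfl⟩
  obtain ⟨N, hN, Q, hQ⟩ := cosets hfg (hTfin.subset hsub)
    ((Set.ncard_le_ncard hsub hTfin).trans hcard)
  refine ⟨N, ?_, Q, hQ⟩
  unfold tr
  have h1 : (N : ℝ) ≤ ((2 ^ Module.finrank ℤ (EAB a b).toAffine.Point * 4 : ℕ) : ℝ) := by
    exact_mod_cast hN
  refine h1.trans (le_of_eq ?_)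
  push_cast
  ring

/-- the integral points -/
def Pt (a b : ℤ) (X Y : ℝ) : Set ℤ :=
  {x : ℤ | X ≤ (x : ℝ) ∧ (x : ℝ) ≤ Y ∧ ∃ y : ℤ, y ^ 2 = x * (x - a) * (x - b)}

theorem one {a b : ℤ} (ha : a ≠ 0) (hb : b ≠ 0) (hab : a ≠ b) {h W X Y : ℝ} (h1 : 1 ≤ h)
    (hah : |(a : ℝ)| ≤ h) (hbh : |(b : ℝ)| ≤ h) (hW : 1 ≤ W) (hX : 3 ^ 12 * h ^ 6 * W ≤ 4 * X)
    (n : ℕ) (hY : Y ≤ W ^ (3 ^ n)) : ((Pt a b X Y).ncard : ℝ) ≤ 16 * n * tr a b := by
  classical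
  have ht0 : 0 ≤ tr a b := zero_le_one.trans (Pool.Agent.U214.PT.one_le_tr a b)
  have hhW : h ^ 6 ≤ h ^ 6 * W := le_mul_of_one_le_right (by positivity) hW
  have hh6 : h ≤ h ^ 6 := by
    have : (1 : ℝ) ≤ h ^ 5 := one_le_pow₀ h1
    nlinarith
  have hX1 : 110 * h ≤ X := by nlinarith
  have hX0 : 0 < X := by linarith
  rcases lt_or_ge Y X with hYX | hYX
  · have : Pt a b X Y = ∅ := by
      ext x
      simp only [Pt, Set.mem_setOf_eq, Set.mem_empty_iff_false, iff_false]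
      rintro ⟨h2, h3, -⟩
      linarith
    rw [this, Set.ncard_empty]
    simp only [Nat.cast_zero]
    positivity
  obtain ⟨N, hN, Q, hQ⟩ := cov ha hb hab
  obtain ⟨s, hs⟩ : ∃ s : ℤ, s = a + b := ⟨_, rfl⟩
  obtain ⟨A, hA⟩ : ∃ A : ℤ, A = 27 * (3 * (a * b) - s ^ 2) := ⟨_, rfl⟩
  obtain ⟨B, hB⟩ : ∃ B : ℤ, B = 27 * s * (9 * (a * b) - 2 * s ^ 2) := ⟨_, rfl⟩
  have hDe : 4 * A ^ 3 + 27 * B ^ 2 = -(3 ^ 12 * (a * b * (a - b)) ^ 2) := by
    rw [hA, hB, hs]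
    ring
  have habne : a * b * (a - b) ≠ 0 := mul_ne_zero (mul_ne_zero ha hb) (sub_ne_zero.2 hab)
  have hD : 4 * A ^ 3 + 27 * B ^ 2 ≠ 0 := by
    rw [hDe]
    exact neg_ne_zero.2 (mul_ne_zero (by norm_num) (pow_ne_zero 2 habne))
  -- the isomorphism
  obtain ⟨e⟩ := Pool.Agent.W261.RT.iso (-((a : ℚ) + b)) ((a : ℚ) * b) 0 (((a : ℚ) + b) / 3) (1 / 3)
    (by norm_num)
  have hcu : (curve A B : WeierstrassCurve ℚ) = ⟨0, (-((a : ℚ) + b) + 3 * (((a : ℚ) + b) / 3)) /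
      (1 / 3) ^ 2, 0, ((a : ℚ) * b + 2 * (((a : ℚ) + b) / 3) * (-((a : ℚ) + b)) +
      3 * (((a : ℚ) + b) / 3) ^ 2) / (1 / 3) ^ 4, (0 + (((a : ℚ) + b) / 3) * ((a : ℚ) * b) +
      (((a : ℚ) + b) / 3) ^ 2 * (-((a : ℚ) + b)) + (((a : ℚ) + b) / 3) ^ 3) / (1 / 3) ^ 6⟩ := by
    unfold curve
    rw [hA, hB, hs]
    push_cast
    congr 1
    · ring
    · ring
    · ring
  have hcov : ∃ Q' : Fin N → (curve A B).Point, ∀ g, ∃ i R, g = Q' i + (R + R) := by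
    have key : ∀ V : WeierstrassCurve ℚ, V = ⟨0, (-((a : ℚ) + b) + 3 * (((a : ℚ) + b) / 3)) /
      (1 / 3) ^ 2, 0, ((a : ℚ) * b + 2 * (((a : ℚ) + b) / 3) * (-((a : ℚ) + b)) +
      3 * (((a : ℚ) + b) / 3) ^ 2) / (1 / 3) ^ 4, (0 + (((a : ℚ) + b) / 3) * ((a : ℚ) * b) +
      (((a : ℚ) + b) / 3) ^ 2 * (-((a : ℚ) + b)) + (((a : ℚ) + b) / 3) ^ 3) / (1 / 3) ^ 6⟩ →
      ∃ Q' : Fin N → V.toAffine.Point, ∀ g, ∃ i R, g = Q' i + (R + R) := by
      rintro V rfl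
      refine ⟨fun i => e (Q i), fun g => ?_⟩
      obtain ⟨i, R, hR⟩ := hQ (e.symm g)
      refine ⟨i, e R, ?_⟩
      rw [← map_add, ← map_add]
      exact (e.symm_apply_eq.1 hR)
    exact key _ hcu
  obtain ⟨Q', hQ'⟩ := hcov
  -- sizes
  have hsr : |(s : ℝ)| ≤ 2 * h := by
    rw [hs]
    push_cast
    exact (abs_add_le _ _).trans (by linarith)
  have hs2 : (s : ℝ) ^ 2 ≤ 4 * h ^ 2 := by
    have := sq_abs (s : ℝ)
    nlinarith [abs_nonneg (s : ℝ)]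
  have hpr : |((a : ℝ) * b)| ≤ h ^ 2 := by
    rw [abs_mul, sq]
    exact mul_le_mul hah hbh (abs_nonneg _) (by linarith)
  have hAr : |(A : ℝ)| ≤ 189 * h ^ 2 := by
    rw [hA]
    push_cast
    rw [abs_le] at hpr ⊢
    constructor <;> nlinarith [sq_nonneg (s : ℝ)]
  have hBr : |(B : ℝ)| ≤ 918 * h ^ 3 := by
    rw [hB]
    push_cast
    have e1 : |9 * ((a : ℝ) * b) - 2 * (s : ℝ) ^ 2| ≤ 17 * h ^ 2 := by
      rw [abs_le] at hpr ⊢
      constructor <;> nlinarith [sq_nonneg (s : ℝ)]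
    rw [abs_mul, abs_mul]
    have e2 : |(27 : ℝ)| = 27 := by norm_num
    rw [e2]
    calc 27 * |(s : ℝ)| * |9 * ((a : ℝ) * b) - 2 * (s : ℝ) ^ 2|
        ≤ (27 * (2 * h)) * (17 * h ^ 2) :=
          mul_le_mul (by linarith) e1 (abs_nonneg _) (by linarith)
      _ = _ := by ring
  obtain ⟨X', hX'⟩ : ∃ X' : ℝ, X' = 9 * X - 3 * s := ⟨_, rfl⟩
  obtain ⟨Y', hY'⟩ : ∃ Y' : ℝ, Y' = 9 * Y - 3 * s := ⟨_, rfl⟩
  have hsb := abs_le.1 hsr
  have hX'1 : 3 * X ≤ X' := by rw [hX']; linarith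
  have hX'0 : 0 < X' := by linarith
  have hX'h : 110 * h ≤ X' := by linarith
  have hc1 : 64 * |(A : ℝ)| ≤ X' ^ 2 := by
    have : (110 * h) ^ 2 ≤ X' ^ 2 := pow_le_pow_left₀ (by linarith) hX'h 2
    nlinarith
  have hc2 : 512 * |(B : ℝ)| ≤ X' ^ 3 := by
    have : (110 * h) ^ 3 ≤ X' ^ 3 := pow_le_pow_left₀ (by linarith) hX'h 3
    nlinarith [pow_nonneg (zero_le_one.trans h1) 3]
  -- the discriminant
  obtain ⟨Δ, hΔ⟩ : ∃ Δ : ℝ, Δ = |((4 * A ^ 3 + 27 * B ^ 2 : ℤ) : ℝ)| := ⟨_, rfl⟩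
  have hΔe : Δ = 3 ^ 12 * ((a : ℝ) * b * (a - b)) ^ 2 := by
    have h3 : ((4 * A ^ 3 + 27 * B ^ 2 : ℤ) : ℝ) = -(3 ^ 12 * ((a : ℝ) * b * (a - b)) ^ 2) := by
      rw [hDe]
      push_cast
      ring
    rw [hΔ, h3, abs_neg, abs_of_nonneg (by positivity)]
  have hΔ1 : (3 : ℝ) ^ 12 ≤ Δ := by
    rw [hΔe]
    have : (1 : ℝ) ≤ ((a : ℝ) * b * (a - b)) ^ 2 := by
      have h3 : (1 : ℤ) ≤ (a * b * (a - b)) ^ 2 := by
        have := sq_nonneg (a * b * (a - b))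
        have h4 : (a * b * (a - b)) ^ 2 ≠ 0 := pow_ne_zero 2 habne
        omega
      exact_mod_cast h3
    nlinarith
  have hΔ2 : Δ ≤ 3 ^ 12 * (4 * h ^ 6) := by
    rw [hΔe]
    have e1 : |(a : ℝ) * b * (a - b)| ≤ 2 * h ^ 3 := by
      rw [abs_mul]
      have e2 : |(a : ℝ) - b| ≤ 2 * h := (abs_sub _ _).trans (by linarith)
      calc |(a : ℝ) * b| * |(a : ℝ) - b| ≤ h ^ 2 * (2 * h) :=
            mul_le_mul hpr e2 (abs_nonneg _) (by positivity)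
        _ = _ := by ring
    have e3 : ((a : ℝ) * b * (a - b)) ^ 2 ≤ (2 * h ^ 3) ^ 2 := by
      rw [← sq_abs]
      exact pow_le_pow_left₀ (abs_nonneg _) e1 2
    have e4 : (2 * h ^ 3) ^ 2 = 4 * h ^ 6 := by ring
    rw [e4] at e3
    exact mul_le_mul_of_nonneg_left e3 (by positivity)
  have hΔ0 : 0 < Δ := lt_of_lt_of_le (by positivity) hΔ1
  have hzX : W ≤ 16 * X' / (3 * Δ) := by
    rw [le_div_iff₀ (by positivity)]
    have : W * (3 * Δ) ≤ W * (3 * (3 ^ 12 * (4 * h ^ 6))) :=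
      mul_le_mul_of_nonneg_left (by linarith) (by linarith)
    nlinarith
  have hY0 : 0 < Y := by linarith
  have hzY : 16 * Y' / (3 * Δ) < Y := by
    rw [div_lt_iff₀ (by positivity)]
    have e1 : Y' ≤ 15 * Y := by rw [hY']; linarith
    have e2 : Y * 3 ^ 12 ≤ Y * Δ := mul_le_mul_of_nonneg_left hΔ1 hY0.le
    nlinarith
  have hz : 16 * Y' / (3 * Δ) < (16 * X' / (3 * Δ)) ^ (3 ^ n) :=
    hzY.trans_le (hY.trans (pow_le_pow_left₀ (by linarith) hzX _))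
  rw [hΔ] at hz
  have hmain := (Pool.Agent.Results.MP_a1107e_nt.CosetRepulsion.result A B hD X' Y' hX'0 hc1 hc2 n
    hz).2 N Q' hQ'
  -- the change of the variable
  have hle : (Pt a b X Y).ncard ≤ {x : ℤ | X' ≤ (x : ℝ) ∧ (x : ℝ) ≤ Y' ∧
      ∃ y : ℤ, y ^ 2 = x ^ 3 + A * x + B}.ncard := by
    have hfin : {x : ℤ | X' ≤ (x : ℝ) ∧ (x : ℝ) ≤ Y' ∧
        ∃ y : ℤ, y ^ 2 = x ^ 3 + A * x + B}.Finite := by
      apply (Set.finite_Icc ⌈X'⌉ ⌊Y'⌋).subset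
      rintro x ⟨h2, h3, -⟩
      exact ⟨Int.ceil_le.2 h2, Int.le_floor.2 h3⟩
    refine Set.ncard_le_ncard_of_injOn (fun x : ℤ => 9 * x - 3 * s) ?_ ?_ hfin
    · rintro x ⟨h2, h3, y, hy⟩
      refine ⟨?_, ?_, 27 * y, ?_⟩
      · rw [hX']
        push_cast
        linarith
      · rw [hY']
        push_cast
        linarith
      · rw [hA, hB, hs]
        linear_combination 729 * hy
    · intro x _ x' _ hxx
      simp only at hxx
      omega
  have h5 : ((Pt a b X Y).ncard : ℝ) ≤ 4 * n * N := by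
    exact_mod_cast hle.trans hmain
  refine h5.trans ?_
  calc (4 * n * N : ℝ) ≤ 4 * n * (4 * tr a b) := mul_le_mul_of_nonneg_left hN (by positivity)
    _ = _ := by ring

end Pool.Agent.U214.IP
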