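import Mathlib
import Pool.Agent.U214.IP.One
import Pool.Agent.U133.SE.Hyp
import Pool.Agent.U133.WR.Grp

/-!
# All large integral points of one curve `y² = x (x - a) (x - b)`
-/

set_option autoImplicit false

namespace Pool.Agent.U214.IP

open Pool.Agent.W262.RK (EAB)
open Pool.Agent.U214.PT (tr)
open Pool.Agent.U133.WR Pool.Agent.U133.GP
open Finset

/-- the cosets for the short equation -/
lemma cov' {a b A B s : ℤ} (ha : a ≠ 0) (hb : b ≠ 0) (hab : a ≠ b) (hs : s = a + b)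
    (hA : A = 27 * (3 * (a * b) - s ^ 2)) (hB : B = 27 * s * (9 * (a * b) - 2 * s ^ 2)) :
    ∃ N : ℕ, (N : ℝ) ≤ 4 * tr a b ∧ ∃ Q : Fin N → (EC A B).Point,
      ∀ g, ∃ i R, g = Q i + (R + R) := by
  classical
  subst hs hA hB
  obtain ⟨N, hN, Q, hQ⟩ := cov ha hb hab
  refine ⟨N, hN, ?_⟩
  obtain ⟨e⟩ := Pool.Agent.W261.RT.iso (-((a : ℚ) + b)) ((a : ℚ) * b) 0 (((a : ℚ) + b) / 3) (1 / 3)
    (by norm_num)
  have key : ∀ V : WeierstrassCurve ℚ, V = ⟨0, (-((a : ℚ) + b) + 3 * (((a : ℚ) + b) / 3)) /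
      (1 / 3) ^ 2, 0, ((a : ℚ) * b + 2 * (((a : ℚ) + b) / 3) * (-((a : ℚ) + b)) +
      3 * (((a : ℚ) + b) / 3) ^ 2) / (1 / 3) ^ 4, (0 + (((a : ℚ) + b) / 3) * ((a : ℚ) * b) +
      (((a : ℚ) + b) / 3) ^ 2 * (-((a : ℚ) + b)) + (((a : ℚ) + b) / 3) ^ 3) / (1 / 3) ^ 6⟩ →
      ∃ Q' : Fin N → V.toAffine.Point, ∀ g, ∃ i R, g = Q' i + (R + R) := by
    rintro V rfl
    refine ⟨fun i => e (Q i), fun g => ?_⟩
    obtain ⟨i, R, hR⟩ := hQ (e.symm g)
    refine ⟨i, e R, ?_⟩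
    rw [← map_add, ← map_add]
    exact (e.symm_apply_eq.1 hR)
  refine key _ ?_
  unfold EC
  push_cast
  congr 1
  · ring
  · ring
  · ring

/-- the points beyond the bound -/
theorem beyond {A B : ℤ} (hD : 4 * A ^ 3 + 27 * B ^ 2 ≠ 0) {T : ℝ} {K : ℕ}
    (hK : ∀ S : Finset ℤ, (∀ x ∈ S, T ≤ |(x : ℝ)|) →
      (∀ x ∈ S, ∀ y ∈ S, SameClass (cub A B) x y) → S.card ≤ K)
    (N : ℕ) (Q : Fin N → (EC A B).Point) (hQ : ∀ P : (EC A B).Point, ∃ i R, P = Q i + (R + R))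
    (S : Finset ℤ) (hS : ∀ x ∈ S, T ≤ |(x : ℝ)| ∧ ∃ y : ℤ, y ^ 2 = x ^ 3 + A * x + B) :
    S.card ≤ K * N := by
  classical
  have hex : ∀ x ∈ S, ∃ (i : Fin N) (y : ℚ) (h : (EC A B).Nonsingular (x : ℚ) y)
      (R : (EC A B).Point), WeierstrassCurve.Affine.Point.some (x : ℚ) y h = Q i + (R + R) := by
    intro x hx
    obtain ⟨-, y, hy⟩ := hS x hx
    have h1 : ((y : ℤ) : ℚ) ^ 2 = (x : ℚ) ^ 3 + A * x + B := by exact_mod_cast hy
    obtain ⟨i, R, h2⟩ := hQ (WeierstrassCurve.Affine.Point.some (x : ℚ) (y : ℚ) (nonsing hD h1))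
    exact ⟨i, y, nonsing hD h1, R, h2⟩
  rcases S.eq_empty_or_nonempty with rfl | ⟨x₁, hx₁⟩
  · simp
  have hN : Nonempty (Fin N) := ⟨(hex x₁ hx₁).choose⟩
  choose! i hi using hex
  have hfib : ∀ j : Fin N, (S.filter fun x => i x = j).card ≤ K := by
    intro j
    refine hK _ (fun x hx => (hS x (mem_filter.mp hx).1).1) ?_
    intro x hx y hy
    by_cases hxy : x = y
    · subst hxy
      exact sameClass_of ⟨Polynomial.C (x : ℚ) - Polynomial.X, by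
        rw [← sq, sub_self]; exact dvd_zero _⟩
    · obtain ⟨hx1, hx2⟩ := mem_filter.mp hx
      obtain ⟨hy1, hy2⟩ := mem_filter.mp hy
      obtain ⟨u, hu, R, hR⟩ := hi x hx1
      obtain ⟨v, hv, R', hR'⟩ := hi y hy1
      refine sameClass_of (same hD hu hv (by exact_mod_cast hxy) (R - R') ?_)
      rw [hR, hR', hx2, hy2]
      abel
  calc S.card = ∑ j : Fin N, (S.filter fun x => i x = j).card :=
        card_eq_sum_card_fiberwise (fun x _ => mem_coe.mpr (mem_univ _))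
    _ ≤ ∑ _j : Fin N, K := sum_le_sum fun j _ => hfib j
    _ = K * N := by rw [sum_const, card_univ, Fintype.card_fin, smul_eq_mul]; ring

/-- the integral points beyond `X` -/
def PI (a b : ℤ) (X : ℝ) : Set ℤ :=
  {x : ℤ | X ≤ (x : ℝ) ∧ ∃ y : ℤ, y ^ 2 = x * (x - a) * (x - b)}

lemma fin_of_bd {s : Set ℤ} {K : ℕ} (h : ∀ S : Finset ℤ, (↑S : Set ℤ) ⊆ s → S.card ≤ K) :
    s.Finite ∧ s.ncard ≤ K := by
  have hf : s.Finite := by
    by_contra hinf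
    obtain ⟨T, hT, hc⟩ := Set.Infinite.exists_subset_card_eq hinf (K + 1)
    have := h T hT
    omega
  refine ⟨hf, ?_⟩
  rw [Set.ncard_eq_toFinset_card s hf]
  exact h _ (by simp)

theorem two : ∃ M : ℕ, ∀ a b : ℤ, a ≠ 0 → b ≠ 0 → a ≠ b → ∀ h Y : ℝ, 1 ≤ h → |(a : ℝ)| ≤ h →
    |(b : ℝ)| ≤ h → (1836 * h ^ 3) ^ M ≤ Y → 110 * h ≤ Y →
    (PI a b Y).Finite ∧ ((PI a b Y).ncard : ℝ) ≤ 64 * tr a b := by
  classical
  obtain ⟨M, hM⟩ := Pool.Agent.U133.SE.hyp 3 le_rfl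
  refine ⟨M, fun a b ha hb hab h Y h1 hah hbh hY1 hY2 => ?_⟩
  obtain ⟨s, hs⟩ : ∃ s : ℤ, s = a + b := ⟨_, rfl⟩
  obtain ⟨A, hA⟩ : ∃ A : ℤ, A = 27 * (3 * (a * b) - s ^ 2) := ⟨_, rfl⟩
  obtain ⟨B, hB⟩ : ∃ B : ℤ, B = 27 * s * (9 * (a * b) - 2 * s ^ 2) := ⟨_, rfl⟩
  obtain ⟨N, hN, Q, hQ⟩ := cov' ha hb hab hs hA hB
  have hDe : 4 * A ^ 3 + 27 * B ^ 2 = -(3 ^ 12 * (a * b * (a - b)) ^ 2) := by
    rw [hA, hB, hs]
    ring
  have habne : a * b * (a - b) ≠ 0 := mul_ne_zero (mul_ne_zero ha hb) (sub_ne_zero.2 hab)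
  have hD : 4 * A ^ 3 + 27 * B ^ 2 ≠ 0 := by
    rw [hDe]
    exact neg_ne_zero.2 (mul_ne_zero (by norm_num) (pow_ne_zero 2 habne))
  -- sizes
  have hsr : |(s : ℝ)| ≤ 2 * h := by
    rw [hs]
    push_cast
    exact (abs_add_le _ _).trans (by linarith)
  have hs2 : (s : ℝ) ^ 2 ≤ 4 * h ^ 2 := by
    have := sq_abs (s : ℝ)
    nlinarith [abs_nonneg (s : ℝ)]
  have hpr : |((a : ℝ) * b)| ≤ h ^ 2 := by
    rw [abs_mul, sq]
    exact mul_le_mul hah hbh (abs_nonneg _) (by linarith)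
  have hh2 : h ^ 2 ≤ h ^ 3 := pow_le_pow_right₀ h1 (by norm_num)
  have hAr : |(A : ℝ)| ≤ 918 * h ^ 3 := by
    have : |(A : ℝ)| ≤ 189 * h ^ 2 := by
      rw [hA]
      push_cast
      rw [abs_le] at hpr ⊢
      constructor <;> nlinarith [sq_nonneg (s : ℝ)]
    nlinarith [pow_nonneg (zero_le_one.trans h1) 3]
  have hBr : |(B : ℝ)| ≤ 918 * h ^ 3 := by
    rw [hB]
    push_cast
    have e1 : |9 * ((a : ℝ) * b) - 2 * (s : ℝ) ^ 2| ≤ 17 * h ^ 2 := by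
      rw [abs_le] at hpr ⊢
      constructor <;> nlinarith [sq_nonneg (s : ℝ)]
    rw [abs_mul, abs_mul]
    have e2 : |(27 : ℝ)| = 27 := by norm_num
    rw [e2]
    calc 27 * |(s : ℝ)| * |9 * ((a : ℝ) * b) - 2 * (s : ℝ) ^ 2|
        ≤ (27 * (2 * h)) * (17 * h ^ 2) :=
          mul_le_mul (by linarith) e1 (abs_nonneg _) (by linarith)
      _ = _ := by ring
  obtain ⟨H, hH⟩ : ∃ H : ℕ, H = max A.natAbs B.natAbs := ⟨_, rfl⟩
  have hHr : (H : ℝ) ≤ 918 * h ^ 3 := by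
    rw [hH, Nat.cast_max, Nat.cast_natAbs, Nat.cast_natAbs]
    push_cast
    exact max_le hAr hBr
  have hH1 : 1 ≤ H := by
    by_contra hlt
    have h0 : H = 0 := by omega
    rw [hH] at h0
    have h2 : A.natAbs = 0 := Nat.le_zero.1 (h0 ▸ le_max_left _ _)
    have h3 : B.natAbs = 0 := Nat.le_zero.1 (h0 ▸ le_max_right _ _)
    rw [Int.natAbs_eq_zero] at h2 h3
    apply hD
    rw [h2, h3]
    norm_num
  have hHA : |A| ≤ (H : ℤ) := by
    rw [Int.abs_eq_natAbs, hH]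
    exact_mod_cast le_max_left _ _
  have hHB : |B| ≤ (H : ℤ) := by
    rw [Int.abs_eq_natAbs, hH]
    exact_mod_cast le_max_right _ _
  have hco : ∀ i, |(cub A B).coeff i| ≤ (H : ℤ) := by
    intro i
    rcases Nat.lt_or_ge i 4 with h4 | h4
    · interval_cases i
      · rw [cub_c0]; exact hHB
      · rw [cub_c1]; exact hHA
      · rw [cub_c2]; simp
      · have : (cub A B).coeff 3 = 1 := by
          have := (cub_monic A B).coeff_natDegree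
          rwa [cub_natDegree] at this
        rw [this]
        simpa using hH1
    · rw [Polynomial.coeff_eq_zero_of_natDegree_lt (by rw [cub_natDegree]; omega)]
      simp
  have hK : ∀ S : Finset ℤ, (∀ x ∈ S, (2 * (H : ℝ)) ^ M ≤ |(x : ℝ)|) →
      (∀ x ∈ S, ∀ y ∈ S, SameClass (cub A B) x y) → S.card ≤ 16 := fun S h2 h3 =>
    (hM H (cub A B) (cub_natDegree A B) (cub_sep A B hD) hco S h2 h3).1
  have hT : (2 * (H : ℝ)) ^ M ≤ Y :=
    (pow_le_pow_left₀ (by positivity) (by linarith) M).trans hY1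
  have hsb := abs_le.1 hsr
  have hbd : ∀ S : Finset ℤ, (↑S : Set ℤ) ⊆ PI a b Y → S.card ≤ 16 * N := by
    intro S hS
    have hinj : Set.InjOn (fun x : ℤ => 9 * x - 3 * s) (↑S : Set ℤ) := by
      intro x _ x' _ hxx
      simp only at hxx
      omega
    rw [← card_image_of_injOn hinj]
    refine beyond hD hK N Q hQ _ ?_
    intro z hz
    obtain ⟨x, hx, rfl⟩ := mem_image.1 hz
    obtain ⟨h2, y, hy⟩ := hS (mem_coe.2 hx)
    refine ⟨?_, 27 * y, ?_⟩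
    · refine le_trans ?_ (le_abs_self _)
      push_cast
      linarith
    · rw [hA, hB, hs]
      linear_combination 729 * hy
  obtain ⟨h3, h4⟩ := fin_of_bd hbd
  refine ⟨h3, ?_⟩
  have h5 : ((PI a b Y).ncard : ℝ) ≤ 16 * N := by exact_mod_cast h4
  linarith

/-- **all the large integral points** -/
theorem three : ∃ C : ℝ, 0 ≤ C ∧ ∀ a b : ℤ, a ≠ 0 → b ≠ 0 → a ≠ b → ∀ h δ : ℝ, 1 ≤ h →
    |(a : ℝ)| ≤ h → |(b : ℝ)| ≤ h → 0 < δ → δ ≤ 1 →
    (PI a b (3 ^ 12 * h ^ (6 + δ))).Finite ∧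
      ((PI a b (3 ^ 12 * h ^ (6 + δ))).ncard : ℝ) ≤ C * (1 + Real.log (1 / δ)) * tr a b := by
  classical
  obtain ⟨M, hM⟩ := two
  obtain ⟨L, hL⟩ : ∃ L : ℝ, L = Real.log (6 * (M + 1)) := ⟨_, rfl⟩
  have hL0 : 0 ≤ L := by
    rw [hL]
    apply Real.log_nonneg
    have : (0 : ℝ) ≤ M := Nat.cast_nonneg M
    linarith
  refine ⟨16 * (1 + L) + 64, by positivity, fun a b ha hb hab h δ h1 hah hbh hδ hδ1 => ?_⟩
  have ht0 : 0 ≤ tr a b := zero_le_one.trans (Pool.Agent.U214.PT.one_le_tr a b)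
  have hh0 : 0 < h := by linarith
  have hM0 : (0 : ℝ) ≤ M := Nat.cast_nonneg M
  have hδ' : 1 ≤ 1 / δ := by
    rw [le_div_iff₀ hδ]
    linarith
  have hlδ : 0 ≤ Real.log (1 / δ) := Real.log_nonneg hδ'
  obtain ⟨n, hn⟩ : ∃ n : ℕ, n = ⌈L + Real.log (1 / δ)⌉₊ := ⟨_, rfl⟩
  have hn1 : (n : ℝ) ≤ 1 + L + Real.log (1 / δ) := by
    rw [hn]
    have := (Nat.ceil_lt_add_one (by linarith : 0 ≤ L + Real.log (1 / δ))).le
    linarith
  have hn2 : 6 * (M + 1) / δ ≤ (3 : ℝ) ^ n := by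
    have e1 : L + Real.log (1 / δ) ≤ n := by
      rw [hn]
      exact Nat.le_ceil _
    have e2 : 6 * (M + 1) / δ = Real.exp (L + Real.log (1 / δ)) := by
      rw [Real.exp_add, hL, Real.exp_log (by linarith), Real.exp_log (by positivity)]
      field_simp
    rw [e2]
    refine (Real.exp_le_exp.2 e1).trans ?_
    have e3 : Real.exp (n : ℝ) = Real.exp 1 ^ n := by
      rw [← Real.exp_nat_mul]
      simp
    rw [e3]
    exact pow_le_pow_left₀ (Real.exp_pos _).le (by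
      have := Real.exp_one_lt_d9
      linarith) _
  have hn3 : 6 * (M + 1) ≤ δ * (3 : ℝ) ^ n := by
    rw [div_le_iff₀ hδ] at hn2
    linarith
  have hn4 : 6 * M ≤ 3 ^ n := by
    have h3 : (6 : ℝ) * M ≤ (3 : ℝ) ^ n := by
      have : δ * (3 : ℝ) ^ n ≤ 1 * 3 ^ n := mul_le_mul_of_nonneg_right hδ1 (by positivity)
      linarith
    exact_mod_cast h3
  -- the threshold
  obtain ⟨Y, hY⟩ : ∃ Y : ℝ, Y = max ((1836 * h ^ 3) ^ M) (110 * h) := ⟨_, rfl⟩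
  obtain ⟨X, hX⟩ : ∃ X : ℝ, X = 3 ^ 12 * h ^ (6 + δ) := ⟨_, rfl⟩
  have hhδ : (1 : ℝ) ≤ h ^ δ := Real.one_le_rpow h1 hδ.le
  have hXe : X = 3 ^ 12 * (h ^ 6 * h ^ δ) := by
    rw [hX, Real.rpow_add hh0]
    norm_num
  obtain ⟨hf, hc⟩ := hM a b ha hb hab h Y h1 hah hbh (by rw [hY]; exact le_max_left _ _)
    (by rw [hY]; exact le_max_right _ _)
  have hYW : Y ≤ (4 * h ^ δ) ^ (3 ^ n) := by
    have e2 : (h ^ δ) ^ (3 ^ n) = h ^ (δ * (3 : ℝ) ^ n) := by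
      rw [Real.rpow_mul hh0.le, ← Real.rpow_natCast _ (3 ^ n)]
      push_cast
      rfl
    have e3 : h ^ ((3 * M + 1 : ℕ) : ℝ) ≤ h ^ (δ * (3 : ℝ) ^ n) := by
      apply Real.rpow_le_rpow_of_exponent_le h1
      push_cast
      linarith
    rw [Real.rpow_natCast] at e3
    rw [hY, mul_pow (4 : ℝ) (h ^ δ), e2]
    apply max_le
    · have e4 : (1836 : ℝ) ^ M ≤ 4 ^ (3 ^ n) := by
        calc (1836 : ℝ) ^ M ≤ (4 ^ 6) ^ M := pow_le_pow_left₀ (by norm_num) (by norm_num) M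
          _ = 4 ^ (6 * M) := by rw [← pow_mul]
          _ ≤ _ := pow_le_pow_right₀ (by norm_num) hn4
      have e5 : (h ^ 3) ^ M ≤ h ^ (δ * (3 : ℝ) ^ n) := by
        refine le_trans ?_ e3
        rw [← pow_mul]
        exact pow_le_pow_right₀ h1 (by omega)
      rw [mul_pow]
      exact mul_le_mul e4 e5 (by positivity) (by positivity)
    · have e6 : (6 : ℝ) ≤ 3 ^ n := by
        have : δ * (3 : ℝ) ^ n ≤ 1 * 3 ^ n := mul_le_mul_of_nonneg_right hδ1 (by positivity)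
        linarith
      have e7 : 6 ≤ 3 ^ n := by exact_mod_cast e6
      have e8 : (110 : ℝ) ≤ 4 ^ (3 ^ n) := by
        calc (110 : ℝ) ≤ 4 ^ 6 := by norm_num
          _ ≤ _ := pow_le_pow_right₀ (by norm_num) e7
      have e9 : h ≤ h ^ (δ * (3 : ℝ) ^ n) := by
        refine le_trans ?_ e3
        exact le_self_pow₀ h1 (by omega)
      exact mul_le_mul e8 e9 hh0.le (by positivity)
  have hmid := one ha hb hab (h := h) (W := 4 * h ^ δ) (X := X) (Y := Y) h1 hah hbh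
    (by linarith) (by
      rw [hXe]
      exact le_of_eq (by ring)) n hYW
  have hsub : PI a b X ⊆ Pt a b X Y ∪ PI a b Y := by
    rintro x ⟨h2, h3⟩
    rcases le_total (x : ℝ) Y with h4 | h4
    · exact Or.inl ⟨h2, h4, h3⟩
    · exact Or.inr ⟨h4, h3⟩
  have hfP : (Pt a b X Y).Finite := by
    apply (Set.finite_Icc ⌈X⌉ ⌊Y⌋).subset
    rintro x ⟨h2, h3, -⟩
    exact ⟨Int.ceil_le.2 h2, Int.le_floor.2 h3⟩
  rw [← hX]
  refine ⟨(hfP.union hf).subset hsub, ?_⟩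
  have h5 : ((PI a b X).ncard : ℝ) ≤ (Pt a b X Y).ncard + (PI a b Y).ncard := by
    have := (Set.ncard_le_ncard hsub (hfP.union hf)).trans (Set.ncard_union_le _ _)
    exact_mod_cast this
  have h6 : (16 * (n : ℝ) + 64) * tr a b ≤
      (16 * (1 + L) + 64) * (1 + Real.log (1 / δ)) * tr a b := by
    apply mul_le_mul_of_nonneg_right _ ht0
    nlinarith [mul_nonneg hL0 hlδ]
  calc ((PI a b X).ncard : ℝ) ≤ 16 * n * tr a b + 64 * tr a b := h5.trans (add_le_add hmid hc)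
    _ = (16 * (n : ℝ) + 64) * tr a b := by ring
    _ ≤ _ := h6

end Pool.Agent.U214.IP
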